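import Pool.Agent.H547.CV.Stm

set_option autoImplicit false

/-!
# S_C : the exact identity for `x = -8`
-/

namespace Pool.Agent.H969.CV322

open Finset Pool.Agent.H547.CV
open scoped Nat

theorem w_succ (k : ℕ) : w (k + 1) * (2 * ((k : ℚ) + 1)) = w k * (2 * k + 1) := by
  unfold w
  have h : ((k : ℚ) + 1) * (Nat.centralBinom (k + 1) : ℚ) = 2 * (2 * k + 1) * Nat.centralBinom k := by
    exact_mod_cast Nat.succ_mul_centralBinom_succ k
  rw [pow_succ]
  field_simp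
  linarith

theorem w_zero : w 0 = 1 := by
  unfold w
  simp

theorem choose_diag (k : ℕ) : ((2 * k).choose k : ℚ) = 4 ^ k * w k := by
  unfold w
  rw [Nat.centralBinom_eq_two_mul_choose]
  field_simp

/-- `(j+1) C(n,j+1) = (n-j) C(n,j)` -/
theorem ch1 (n j : ℕ) : ((j : ℚ) + 1) * (n.choose (j + 1) : ℚ) = ((n : ℚ) - j) * n.choose j := by
  rcases le_or_gt j n with h | h
  · have h1 := Nat.choose_succ_right_eq n j
    have h2 : ((n.choose (j + 1) * (j + 1) : ℕ) : ℚ) = ((n.choose j * (n - j) : ℕ) : ℚ) := by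
      rw [h1]
    rw [Nat.cast_mul, Nat.cast_mul, Nat.cast_sub h] at h2
    push_cast at h2
    linarith
  · rw [Nat.choose_eq_zero_of_lt h, Nat.choose_eq_zero_of_lt (by omega)]
    simp

def F (l i : ℕ) : ℚ := w l * w i * (-2) ^ i * (((i : ℚ) + 1) * ((2 * l).choose (i + 1) : ℚ))

def G (l i : ℕ) : ℚ := -(w l * w i * (-2) ^ i * ((i : ℚ) * ((2 * l).choose (i - 1) : ℚ)))

theorem G_zero (l : ℕ) : G l 0 = 0 := by unfold G; simp

theorem F_zero (i : ℕ) : F 0 i = 0 := by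
  unfold F
  rw [Nat.choose_eq_zero_of_lt (by omega : 2 * 0 < i + 1)]
  simp

theorem G_succ (l i : ℕ) : G l (i + 1) = w l * w i * (-2) ^ i * ((2 * (i : ℚ) + 1) *
    ((2 * l).choose i : ℚ)) := by
  unfold G
  have h := w_succ i
  rw [Nat.add_sub_cancel, pow_succ]
  push_cast
  linear_combination (w l * (-2) ^ i * ((2 * l).choose i : ℚ)) * h

theorem F_succ (l i : ℕ) : F (l + 1) i = w l * w i * (-2) ^ i * ((2 * (l : ℚ) + 1) *
    ((2 * l + 1).choose i : ℚ)) := by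
  unfold F
  have h := w_succ l
  have h2 : ((i : ℚ) + 1) * ((2 * (l + 1)).choose (i + 1) : ℚ) =
      (2 * (l : ℚ) + 2) * ((2 * l + 1).choose i : ℚ) := by
    have h3 := Nat.add_one_mul_choose_eq (2 * l + 1) i
    have h4 : (((2 * l + 1 + 1) * (2 * l + 1).choose i : ℕ) : ℚ) =
        (((2 * l + 1 + 1).choose (i + 1) * (i + 1) : ℕ) : ℚ) := by rw [h3]
    push_cast at h4
    have e : 2 * (l + 1) = 2 * l + 1 + 1 := by ring
    rw [e]
    linarith
  rw [h2]
  linear_combination (w i * (-2) ^ i * ((2 * l + 1).choose i : ℚ)) * h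

theorem WZ (l i : ℕ) : F (l + 1) i - F l i = G l (i + 1) - G l i := by
  rw [F_succ, G_succ]
  cases i with
  | zero =>
    rw [G_zero]
    unfold F
    simp
    ring
  | succ i =>
    unfold F G
    rw [ch1 (2 * l) (i + 1), Nat.add_sub_cancel]
    have h1 : ((2 * l + 1).choose (i + 1) : ℚ) = (2 * l).choose i + (2 * l).choose (i + 1) := by
      exact_mod_cast Nat.choose_succ_succ (2 * l) i
    have h2 := ch1 (2 * l) i
    rw [h1]
    push_cast at h2 ⊢
    linear_combination (-(w l * w (i + 1) * (-2) ^ (i + 1))) * h2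

def Ps (l i : ℕ) : ℚ := ∑ m ∈ range i, F l m

theorem Ps_zero_right (l : ℕ) : Ps l 0 = 0 := by unfold Ps; simp

theorem Ps_zero_left (i : ℕ) : Ps 0 i = 0 := by
  unfold Ps
  exact sum_eq_zero fun m _ => F_zero m

theorem Ps_right (l i : ℕ) : Ps l (i + 1) - Ps l i = F l i := by
  unfold Ps
  rw [sum_range_succ]
  ring

theorem Ps_left (l i : ℕ) : Ps (l + 1) i - Ps l i = G l i := by
  unfold Ps
  rw [← sum_sub_distrib]
  have h : ∀ m ∈ range i, F (l + 1) m - F l m = G l (m + 1) - G l m := fun m _ => WZ l m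
  rw [sum_congr rfl h, sum_range_sub, G_zero, sub_zero]

/-- the terms of the series -/
def be (k : ℕ) : ℚ := b3 k / (-8) ^ k

theorem diag (k : ℕ) : F (k + 1) k + G k k = be k := by
  have hb : be k = (3 * (k : ℚ) + 1) * (-8) ^ k * w k ^ 3 := by
    unfold be b3 w
    have h8 : ((-8 : ℚ)) ^ k * (-8) ^ k = 4 ^ k * 4 ^ k * 4 ^ k := by
      rw [← mul_pow, ← mul_pow, ← mul_pow]
      norm_num
    have h80 : ((-8 : ℚ)) ^ k ≠ 0 := pow_ne_zero _ (by norm_num)
    have h40 : ((4 : ℚ)) ^ k ≠ 0 := pow_ne_zero _ (by norm_num)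
    rw [div_eq_iff h80, div_pow]
    have e : (3 * (k : ℚ) + 1) * (-8) ^ k * ((Nat.centralBinom k : ℚ) ^ 3 / (4 ^ k) ^ 3) * (-8) ^ k =
        (3 * (k : ℚ) + 1) * (Nat.centralBinom k : ℚ) ^ 3 * ((-8) ^ k * (-8) ^ k) / (4 ^ k) ^ 3 := by
      ring
    rw [e, h8]
    field_simp
  rw [hb, F_succ]
  have h8 : ((-8 : ℚ)) ^ k = (-2) ^ k * 4 ^ k := by
    rw [← mul_pow]
    norm_num
  unfold G
  cases k with
  | zero => simp [w_zero]
  | succ k =>
    have h0 := choose_diag (k + 1)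
    have h1 : ((2 * (k + 1) + 1).choose (k + 1) : ℚ) =
        (2 * (k + 1)).choose k + (2 * (k + 1)).choose (k + 1) := by
      exact_mod_cast Nat.choose_succ_succ (2 * (k + 1)) k
    have h2 := ch1 (2 * (k + 1)) k
    rw [h1, h8, Nat.add_sub_cancel]
    push_cast at h2 ⊢
    have h3 : ((k : ℚ) + 2) * ((2 * (k + 1)).choose k : ℚ) =
        ((k : ℚ) + 1) * ((2 * (k + 1)).choose (k + 1) : ℚ) := by linarith
    linear_combination (w (k + 1) * w (k + 1) * (-2) ^ (k + 1)) * h3 +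
      (w (k + 1) * w (k + 1) * (-2) ^ (k + 1) * (3 * ((k : ℚ) + 1) + 1)) * h0

theorem Ps_diag (k : ℕ) : Ps (k + 1) (k + 1) - Ps k k = be k := by
  rw [← diag, ← Ps_left k k, ← Ps_right (k + 1) k]
  ring

theorem Ps_sum (n : ℕ) : Ps n n = ∑ j ∈ range n, be j := by
  induction n with
  | zero => exact Ps_zero_right 0
  | succ n ih => rw [sum_range_succ, ← ih, ← Ps_diag]; ring

theorem SS_eq (N : ℕ) : SS (-8) N = ∑ m ∈ range N, Ps (m + 1) (m + 1) * be (N - 1 - m) := by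
  have h0 : SS (-8) N = ∑ k ∈ range N, ∑ j ∈ range (k + 1), be j * be (k - j) := by
    unfold SS
    refine sum_congr rfl fun k _ => ?_
    rw [sum_div]
    refine sum_congr rfl fun j hj => ?_
    have hjk : j ≤ k := Nat.lt_succ_iff.1 (mem_range.1 hj)
    unfold be
    have e : ((-8 : ℚ)) ^ k = (-8) ^ j * (-8) ^ (k - j) := by
      rw [← pow_add, Nat.add_sub_cancel' hjk]
    rw [e, mul_div_mul_comm]
  rw [h0]
  clear h0
  induction N with
  | zero => simp
  | succ N ih =>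
    rw [sum_range_succ, ih]
    rw [sum_range_succ' (fun j => be j * be (N - j)),
      sum_range_succ' (fun m => Ps (m + 1) (m + 1) * be (N + 1 - 1 - m))]
    have e : ∀ m ∈ range N, Ps (m + 1 + 1) (m + 1 + 1) * be (N + 1 - 1 - (m + 1)) =
        Ps (m + 1) (m + 1) * be (N - 1 - m) + be (m + 1) * be (N - (m + 1)) := by
      intro m hm
      have h1 := Ps_diag (m + 1)
      have e1 : N + 1 - 1 - (m + 1) = N - 1 - m := by omega
      have e2 : N - (m + 1) = N - 1 - m := by omega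
      rw [e1, e2]
      linear_combination (be (N - 1 - m)) * h1
    rw [sum_congr rfl e, sum_add_distrib]
    have h1 : Ps (0 + 1) (0 + 1) = be 0 := by
      have h2 := Ps_diag 0
      rw [Ps_zero_left] at h2
      linarith
    rw [h1, Nat.add_sub_cancel, Nat.sub_zero]
    ring

/-- the multinomial identity -/
theorem mult4 (a b c d : ℕ) : ((a + b + (c + d)).choose (a + b) : ℚ) * (a + b).choose a *
    (c + d).choose c = (a + b + (c + d)).choose (a + c) * (a + c).choose a * (b + d).choose b := by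
  have f : ∀ x y : ℕ, ((x + y).choose x : ℚ) = ((x + y)! : ℚ) / ((x ! : ℚ) * (y ! : ℚ)) := by
    intro x y
    rw [Nat.cast_choose ℚ (Nat.le_add_right x y), Nat.add_sub_cancel_left]
  have e : a + b + (c + d) = a + c + (b + d) := by ring
  rw [f (a + b) (c + d), f a b, f c d]
  have f2 : ((a + b + (c + d)).choose (a + c) : ℚ) =
      ((a + b + (c + d))! : ℚ) / (((a + c)! : ℚ) * ((b + d)! : ℚ)) := by
    rw [e]; exact f (a + c) (b + d)
  rw [f2, f a c, f b d]
  have h1 : ((a + b)! : ℚ) ≠ 0 := by exact_mod_cast (Nat.factorial_pos _).ne'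
  have h2 : ((c + d)! : ℚ) ≠ 0 := by exact_mod_cast (Nat.factorial_pos _).ne'
  have h3 : ((a + c)! : ℚ) ≠ 0 := by exact_mod_cast (Nat.factorial_pos _).ne'
  have h4 : ((b + d)! : ℚ) ≠ 0 := by exact_mod_cast (Nat.factorial_pos _).ne'
  have h5 : (a ! : ℚ) ≠ 0 := by exact_mod_cast (Nat.factorial_pos _).ne'
  have h6 : (b ! : ℚ) ≠ 0 := by exact_mod_cast (Nat.factorial_pos _).ne'
  have h7 : (c ! : ℚ) ≠ 0 := by exact_mod_cast (Nat.factorial_pos _).ne'
  have h8 : (d ! : ℚ) ≠ 0 := by exact_mod_cast (Nat.factorial_pos _).ne'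
  field_simp

theorem M (N l j : ℕ) (hl : l ≤ N) (hj : j ≤ N) (hjl : j ≤ 2 * l) :
    ((2 * N).choose (2 * l) : ℚ) * (2 * l).choose j * (2 * N - 2 * l).choose (N - j) =
      (2 * N).choose N * N.choose j * N.choose (2 * l - j) := by
  rcases Nat.lt_or_ge N (2 * l - j) with h | h
  · rw [Nat.choose_eq_zero_of_lt h, Nat.choose_eq_zero_of_lt (by omega : 2 * N - 2 * l < N - j)]
    simp
  · have h1 := mult4 j (2 * l - j) (N - j) (N - (2 * l - j))
    have e1 : j + (2 * l - j) = 2 * l := by omega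
    have e2 : j + (N - j) = N := by omega
    have e3 : 2 * l - j + (N - (2 * l - j)) = N := by omega
    have e4 : N - j + (N - (2 * l - j)) = 2 * N - 2 * l := by omega
    have e5 : 2 * l + (2 * N - 2 * l) = 2 * N := by omega
    rw [e1, e2, e3, e4, e5] at h1
    exact h1

theorem cA (N l i : ℕ) (hil : i < l) (hl : l ≤ N) : F l i * G (N - l) (N - i) =
    -((-2) ^ N * ((2 * N).choose N : ℚ)) * (rho N l * cc N i * ((N : ℚ) - i) ^ 2 *
      (N.choose (2 * l - i - 1) : ℚ)) := by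
  have hM := M N l (i + 1) hl (by omega) (by omega)
  have hc := ch1 N i
  have hC0 : ((2 * N).choose (2 * l) : ℚ) ≠ 0 := by
    exact_mod_cast (Nat.choose_pos (by omega)).ne'
  have e1 : 2 * l - i - 1 = 2 * l - (i + 1) := by omega
  have e2 : 2 * (N - l) = 2 * N - 2 * l := by omega
  have e3 : N - i - 1 = N - (i + 1) := by omega
  have e4 : ((-2 : ℚ)) ^ N = (-2) ^ i * (-2) ^ (N - i) := by
    rw [← pow_add]; congr 1; omega
  have e5 : ((N - i : ℕ) : ℚ) = (N : ℚ) - i := Nat.cast_sub (by omega)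
  unfold F G rho cc
  rw [e1, e2, e3, e4, e5]
  obtain ⟨X, hX⟩ : ∃ X : ℚ, X = ((2 * N).choose (2 * l) : ℚ) := ⟨_, rfl⟩
  rw [← hX] at hM hC0 ⊢
  field_simp
  linear_combination (-(w l * w i * w (N - l) * w (N - i) * (((i : ℚ) + 1) * ((N : ℚ) - i)))) * hM -
    (w l * w i * w (N - l) * w (N - i)) *
      (((2 * N).choose N : ℚ) * (N.choose (2 * l - (i + 1)) : ℚ) * ((N : ℚ) - i)) * hc

theorem cB (N l i : ℕ) (hil : i < l) (hl : l < N) : G l (i + 1) * F (N - l) (N - (i + 1)) =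
    -((-2) ^ N * ((2 * N).choose N : ℚ)) * (rho N l * cc N (i + 1) * ((i : ℚ) + 1) ^ 2 *
      (N.choose (2 * l - i) : ℚ)) := by
  have hM := M N l i hl.le (by omega) (by omega)
  have hc := ch1 N i
  have hC0 : ((2 * N).choose (2 * l) : ℚ) ≠ 0 := by
    exact_mod_cast (Nat.choose_pos (by omega)).ne'
  have e2 : 2 * (N - l) = 2 * N - 2 * l := by omega
  have e3 : N - (i + 1) + 1 = N - i := by omega
  have e4 : ((-2 : ℚ)) ^ N = (-2) ^ (i + 1) * (-2) ^ (N - (i + 1)) := by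
    rw [← pow_add]; congr 1; omega
  have e5 : ((N - (i + 1) : ℕ) : ℚ) = (N : ℚ) - (i + 1) := by
    rw [Nat.cast_sub (by omega)]; push_cast; ring
  unfold F G rho cc
  rw [e2, e3, e4, e5, Nat.add_sub_cancel]
  obtain ⟨X, hX⟩ : ∃ X : ℚ, X = ((2 * N).choose (2 * l) : ℚ) := ⟨_, rfl⟩
  rw [← hX] at hM hC0 ⊢
  push_cast
  field_simp
  linear_combination (-(w l * w (i + 1) * w (N - l) * w (N - (i + 1)) * ((N : ℚ) - i))) * hM +
    (w l * w (i + 1) * w (N - l) * w (N - (i + 1))) *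
      (((2 * N).choose N : ℚ) * (N.choose (2 * l - i) : ℚ)) * hc

theorem rho_succ (N l : ℕ) (hl : l < N) : rho N (l + 1) * (2 * (N : ℚ) - (2 * l + 1)) ^ 2 =
    rho N l * (2 * l + 1) ^ 2 := by
  obtain ⟨k, rfl⟩ : ∃ k, N = l + 1 + k := ⟨N - (l + 1), by omega⟩
  unfold rho
  rw [show l + 1 + k - (l + 1) = k by omega, show l + 1 + k - l = k + 1 by omega,
    show 2 * (l + 1) = 2 * l + 1 + 1 by ring]
  have hC0 : ((2 * (l + 1 + k)).choose (2 * l) : ℚ) ≠ 0 := by
    exact_mod_cast (Nat.choose_pos (by omega)).ne'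
  have hC2 : ((2 * (l + 1 + k)).choose (2 * l + 1 + 1) : ℚ) ≠ 0 := by
    exact_mod_cast (Nat.choose_pos (by omega)).ne'
  have c1 := ch1 (2 * (l + 1 + k)) (2 * l)
  have c2 := ch1 (2 * (l + 1 + k)) (2 * l + 1)
  have hw1 := w_succ l
  have hw2 := w_succ k
  obtain ⟨C0, h0⟩ : ∃ X : ℚ, X = ((2 * (l + 1 + k)).choose (2 * l) : ℚ) := ⟨_, rfl⟩
  obtain ⟨C1, h1⟩ : ∃ X : ℚ, X = ((2 * (l + 1 + k)).choose (2 * l + 1) : ℚ) := ⟨_, rfl⟩
  obtain ⟨C2, h2⟩ : ∃ X : ℚ, X = ((2 * (l + 1 + k)).choose (2 * l + 1 + 1) : ℚ) := ⟨_, rfl⟩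
  rw [← h0] at c1 hC0
  rw [← h1] at c1 c2
  rw [← h2] at c2 hC2
  rw [← h0, ← h2, div_mul_eq_mul_div, div_mul_eq_mul_div, div_eq_div_iff hC2 hC0]
  push_cast at c1 c2 ⊢
  have hk : (2 * ((k : ℚ) + 1)) ≠ 0 := by positivity
  have hl' : (2 * ((l : ℚ) + 1)) ≠ 0 := by positivity
  have hc : C2 * ((2 * l + 1) * (2 * l + 2)) = C0 * ((2 * k + 2) * (2 * (k : ℚ) + 1)) := by
    linear_combination (2 * (l : ℚ) + 1) * c2 + (2 * (k : ℚ) + 1) * c1
  apply mul_left_cancel₀ (mul_ne_zero hk hl')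
  linear_combination (w k * (2 * (k : ℚ) + 1) ^ 2 * C0 * (2 * ((k : ℚ) + 1))) * hw1 -
    (w l * (2 * (l : ℚ) + 1) ^ 2 * C2 * (2 * ((l : ℚ) + 1))) * hw2 -
    (w l * w k * (2 * (k : ℚ) + 1) * (2 * (l : ℚ) + 1)) * hc

theorem main_id (N : ℕ) : SS (-8) N =
    ∑ m ∈ range N, ∑ i ∈ range (m + 1), F (m + 1) i * G (N - (m + 1)) (N - i) -
      ∑ l ∈ range N, ∑ i ∈ range l, G l (i + 1) * F (N - l) (N - (i + 1)) := by
  have hs := stokes Ps (fun l i => Ps (N - l) (N - i)) N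
  have h0 : ∑ m ∈ range N, Ps (m + 1) (m + 1) * be (N - 1 - m) =
      ∑ m ∈ range N, Ps (m + 1) (m + 1) *
        (Ps (N - m) (N - m) - Ps (N - (m + 1)) (N - (m + 1))) := by
    refine sum_congr rfl fun m hm => ?_
    have hm' := mem_range.1 hm
    have h1 := Ps_diag (N - 1 - m)
    have e1 : N - 1 - m + 1 = N - m := by omega
    have e2 : N - (m + 1) = N - 1 - m := by omega
    rw [e1] at h1
    rw [e2, h1]
  have h1 : ∑ m ∈ range N, Ps (m + 1) 0 * (Ps (N - m) (N - 0) - Ps (N - (m + 1)) (N - 0)) = 0 :=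
    sum_eq_zero fun m _ => by rw [Ps_zero_right, zero_mul]
  have h2 : ∑ i ∈ range N, Ps N (i + 1) * (Ps (N - N) (N - i) - Ps (N - N) (N - (i + 1))) = 0 :=
    sum_eq_zero fun i _ => by
      rw [Nat.sub_self, Ps_zero_left, Ps_zero_left, sub_zero, mul_zero]
  rw [SS_eq, h0, hs, h1, h2, zero_add, zero_add]
  congr 1
  · refine sum_congr rfl fun m hm => sum_congr rfl fun i hi => ?_
    have hm' := mem_range.1 hm
    have e1 : N - m = N - (m + 1) + 1 := by omega
    rw [Ps_right, e1, Ps_left]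
  · refine sum_congr rfl fun l hl => sum_congr rfl fun i hi => ?_
    have hl' := mem_range.1 hl
    have hi' := mem_range.1 hi
    have e1 : N - i = N - (i + 1) + 1 := by omega
    rw [Ps_left, e1, Ps_right]

theorem C : S_C := by
  intro N
  rw [main_id]
  have h1 : ∑ m ∈ range N, ∑ i ∈ range (m + 1), F (m + 1) i * G (N - (m + 1)) (N - i) =
      -((-2) ^ N * ((2 * N).choose N : ℚ)) * (∑ l ∈ range N, ∑ i ∈ range l,
        rho N (l + 1) * cc N (i + 1) * ((N : ℚ) - (i + 1)) ^ 2 * (N.choose (2 * l - i) : ℚ) +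
        (N : ℚ) ^ 2 * w N * ∑ l ∈ range N, rho N (l + 1) * (N.choose (2 * l + 1) : ℚ)) := by
    rw [mul_sum, ← sum_add_distrib, mul_sum]
    refine sum_congr rfl fun m hm => ?_
    have hm' := mem_range.1 hm
    rw [sum_range_succ', mul_add, mul_sum]
    congr 1
    · refine sum_congr rfl fun i hi => ?_
      have hi' := mem_range.1 hi
      rw [cA N (m + 1) (i + 1) (by omega) (by omega)]
      have e1 : 2 * (m + 1) - (i + 1) - 1 = 2 * m - i := by omega
      rw [e1]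
      push_cast
      ring
    · rw [cA N (m + 1) 0 (by omega) (by omega)]
      have e1 : 2 * (m + 1) - 0 - 1 = 2 * m + 1 := by omega
      have e2 : cc N 0 = w N := by
        unfold cc
        rw [w_zero, Nat.sub_zero, Nat.choose_zero_right]
        push_cast
        ring
      rw [e1, e2]
      push_cast
      ring
  have h2 : ∑ l ∈ range N, ∑ i ∈ range l, G l (i + 1) * F (N - l) (N - (i + 1)) =
      -((-2) ^ N * ((2 * N).choose N : ℚ)) * ∑ l ∈ range N, ∑ i ∈ range l,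
        rho N l * cc N (i + 1) * ((i : ℚ) + 1) ^ 2 * (N.choose (2 * l - i) : ℚ) := by
    rw [mul_sum]
    refine sum_congr rfl fun l hl => ?_
    have hl' := mem_range.1 hl
    rw [mul_sum]
    refine sum_congr rfl fun i hi => ?_
    exact cB N l i (mem_range.1 hi) hl'
  rw [h1, h2]
  have h3 : ∑ l ∈ range N, ∑ i ∈ range l, rho N l * cc N (i + 1) * (N.choose (2 * l - i) : ℚ) *
      ((N : ℚ) * (2 * ((i : ℚ) + 1) - (2 * l + 1)) *
        (2 * N * ((i : ℚ) + 1) + N * (2 * l + 1) - 2 * ((i : ℚ) + 1) * (2 * l + 1)) /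
        (2 * (N : ℚ) - (2 * l + 1)) ^ 2) =
      ∑ l ∈ range N, ∑ i ∈ range l,
        rho N l * cc N (i + 1) * ((i : ℚ) + 1) ^ 2 * (N.choose (2 * l - i) : ℚ) -
      ∑ l ∈ range N, ∑ i ∈ range l,
        rho N (l + 1) * cc N (i + 1) * ((N : ℚ) - (i + 1)) ^ 2 * (N.choose (2 * l - i) : ℚ) := by
    rw [← sum_sub_distrib]
    refine sum_congr rfl fun l hl => ?_
    rw [← sum_sub_distrib]
    refine sum_congr rfl fun i hi => ?_
    have hl' := mem_range.1 hl
    have hr := rho_succ N l hl'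
    have hpos : (2 * (N : ℚ) - (2 * l + 1)) ≠ 0 := by
      have : (l : ℚ) + 1 ≤ N := by exact_mod_cast hl'
      have h0 : (0 : ℚ) < 2 * (N : ℚ) - (2 * l + 1) := by linarith
      exact h0.ne'
    have hr' : rho N (l + 1) = rho N l * (2 * l + 1) ^ 2 / (2 * (N : ℚ) - (2 * l + 1)) ^ 2 := by
      rw [eq_div_iff (pow_ne_zero 2 hpos)]
      exact hr
    rw [hr']
    obtain ⟨D, hD⟩ : ∃ D : ℚ, D = 2 * (N : ℚ) - (2 * l + 1) := ⟨_, rfl⟩
    rw [← hD] at hpos ⊢
    field_simp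
    rw [hD]
    ring
  rw [h3]
  ring

end Pool.Agent.H969.CV322
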